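import Pool.Agent.H.MP_474c54_lc.B

set_option autoImplicit false

namespace Pool.Agent.H.MP_474c54_lc
open Pool.Agent.Lib.CX

lemma size_sd (n : ℕ) (a b : List ℕ) : size (sd n a b) ≤ n * (3 * n + 3) + 2 := by
  refine (size_list_le (B := 3 * n + 2) fun x hx => ?_).trans ?_
  · have := List.mem_range.1 (List.mem_of_mem_filter hx)
    have := size_nat_le x
    omega
  · have : (sd n a b).length ≤ n := (List.length_filter_le _ _).trans (by simp)
    gcongr

lemma size_fold (n B : ℕ) (hB : n * (3 * n + 3) + 2 ≤ B) (l : List ℕ) (s : List (List ℕ) × List ℕ × Bool)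
    (h1 : ∀ v ∈ s.1, size v ≤ B) (h2 : size s.2.1 ≤ B) :
    size (l.foldl (st n) s) ≤ s.1.length * (B + 1) + B + 10 := by
  induction l generalizing s with
  | nil =>
    obtain ⟨a, b, c⟩ := s
    have := size_list_le h1
    have : size c ≤ 2 := by cases c <;> decide
    simp only [List.foldl_nil, size_pair] at *
    omega
  | cons i l ih =>
    have e : ∀ p v, size v ≤ B → size (el n i p v) ≤ B := fun p v hv => by
      unfold el; split_ifs
      · exact (size_sd _ _ _).trans hB
      · exact hv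
    simpa [st] using ih (st n s i) (fun v hv => by
      obtain ⟨w, a, rfl⟩ := List.mem_map.1 hv
      exact e _ _ (h1 w a)) (e _ _ h2)

section
variable {α : Type} [Enc α] {n i : α → ℕ} {x y : α → List ℕ} {L : α → List (List ℕ)}
  {Ms : α → List (ℕ × List ℕ)}

@[fun_prop] lemma pt_sd (h : PT n) (h' : PB n) (hx : PT x) (hy : PT y) : PT fun a => sd (n a) (x a) (y a) := by
  unfold sd; fun_prop
attribute [local irreducible] sd
@[fun_prop] lemma pt_piv (hL : PT L) (hi : PT i) : PT fun a => piv (L a) (i a) := by unfold piv; fun_prop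
@[fun_prop] lemma pt_el (h : PT n) (h' : PB n) (hi : PT i) (hx : PT x) (hy : PT y) :
    PT fun a => el (n a) (i a) (x a) (y a) := by unfold el; fun_prop
attribute [local irreducible] piv el

lemma PB.comp' {β : Type} [Enc β] {g : β → α} (h' : PB n) (hg : PT g) : PB fun b => n (g b) := by
  obtain ⟨q, hq⟩ := h'
  exact ((PB.size hg).eval q).mono fun b => hq _

@[fun_prop] lemma pt_solve (h : PT n) (h' : PB n) (hL : PT L) (hx : PT x) (hy : PT y) :
    PT fun a => solve (n a) (L a) (x a) (y a) := by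
  have k := PB.comp' (g := fun p : α × (List (List ℕ) × List ℕ × Bool) × ℕ => p.1) h' PT.fst'
  have k' := PB.comp' (g := fun p : (α × (List (List ℕ) × List ℕ × Bool) × ℕ) × List ℕ => p.1.1) h'
    (by fun_prop)
  refine (PT.foldl (F := fun a => st (n a)) (i := fun a => (L a, x a, true)) (B := fun a => (L a).length *
    (size (L a) + size (x a) + (n a * (3 * n a + 3) + 2) + 1) + (size (L a) + size (x a) +
    (n a * (3 * n a + 3) + 2)) + 10) (by unfold st; fun_prop) (by fun_prop) hy (by fun_prop)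
    fun a k => size_fold _ _ (by omega) _ _ (fun v hv => ?_) (by simp only; omega)).snd.snd
  have := size_mem hv
  simp only at this
  omega
attribute [local irreducible] solve
end

section
variable {α : Type} [Enc α] {u : α → List Unit} {x : α → List ℕ} {L : α → List (List ℕ)}
  {Ms : α → List (ℕ × List ℕ)}
attribute [local irreducible] sd solve

@[fun_prop] lemma pt_inS (h : PT u) (hL : PT L) (hx : PT x) : PT fun a => inS (u a).length (L a) (x a) := by
  unfold inS; fun_prop
attribute [local irreducible] inS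
@[fun_prop] lemma pt_bad (h : PT u) (hM : PT Ms) (hL : PT L) (hx : PT x) :
    PT fun a => bad (u a).length (Ms a) (L a) (x a) := by
  unfold bad; fun_prop
@[fun_prop] lemma pt_cands (h : PT u) (hM : PT Ms) : PT fun a => cands (u a).length (Ms a) := by
  unfold cands; fun_prop
attribute [local irreducible] bad cands
@[fun_prop] lemma pt_nxt (h : PT u) (hM : PT Ms) (hL : PT L) : PT fun a => nxt (u a).length (Ms a) (L a) := by
  unfold nxt; fun_prop
@[fun_prop] lemma pt_fin (h : PT u) (hM : PT Ms) : PT fun a => fin (u a).length (Ms a) :=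
  PT.iterate (F := fun a => nxt (u a).length (Ms a)) (B := fun a => size (cands (u a).length (Ms a)))
    (by fun_prop) (PT.const _) (by fun_prop) (by fun_prop) (by fun_prop) fun a k _ => size_sublist (by
      cases k with
      | zero => simp
      | succ k => rw [Function.iterate_succ_apply']; exact List.filter_sublist)
@[fun_prop] lemma pt_opts (h : PT u) (hM : PT Ms) (hx : PT x) : PT fun a => opts (u a).length (Ms a) (x a) := by
  unfold opts; fun_prop
attribute [local irreducible] opts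
@[fun_prop] lemma pt_alg (h : PT u) (hM : PT Ms) (hL : PT L) (hx : PT x) :
    PT fun a => alg (u a).length (Ms a) (L a) (x a) := by
  unfold alg; fun_prop
end

def tup : ℕ → List ℕ → List (List ℕ)
  | 0, _ => [[]]
  | k + 1, l => l.flatMap fun x => (tup k l).map (x :: ·)

lemma mem_tup {k : ℕ} {l F : List ℕ} : F ∈ tup k l ↔ F.length = k ∧ ∀ x ∈ F, x ∈ l := by
  induction k generalizing F with
  | zero => cases F <;> simp [tup]
  | succ k ih => cases F <;> simp [tup, ih, and_left_comm]

@[fun_prop] lemma pt_tup {α : Type} [Enc α] (k : ℕ) {l : α → List ℕ} (h : PT l) : PT fun a => tup k (l a) := by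
  have : PT (tup k) := by
    induction k with
    | zero => exact PT.const _
    | succ k ih => exact PT.congr (g := fun l => l.flatMap fun x => (tup k l).map (x :: ·)) (by fun_prop) fun _ => rfl
  exact this.comp h

def ch (k : ℕ) (l : List ℕ) : List (List ℕ) := if l.length ≤ k then [l] else (tup k l).filter (·.Nodup)
def fol (a : Gr) (u : ℕ) : List ℕ := (List.range a.1.length).filter fun v => (u, v) ∈ a.2
def ML (k : ℕ) (a : Gr) : List (ℕ × List ℕ) :=
  (List.range a.1.length).flatMap fun u => (ch k (fol a u)).map fun F => (u, sd a.1.length [u] F)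

lemma pt_ML (k : ℕ) : PT (ML k) := by unfold ML ch fol; fun_prop

lemma ch1 {k : ℕ} {l F : List ℕ} (hl : l.Nodup) (h : F ∈ ch k l) :
    F.Nodup ∧ F.length = min k l.length ∧ ∀ x ∈ F, x ∈ l := by
  unfold ch at h
  split_ifs at h with e
  · obtain rfl := List.mem_singleton.1 h
    exact ⟨hl, by omega, fun _ => id⟩
  · simp only [List.mem_filter, mem_tup, decide_eq_true_eq] at h
    exact ⟨h.2, by omega, h.1.2⟩

lemma ch2 {k : ℕ} {l F : List ℕ} (h1 : F.Nodup) (h2 : F.length = min k l.length)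
    (h3 : ∀ x ∈ F, x ∈ l) : ∃ F' ∈ ch k l, ∀ x, x ∈ F' ↔ x ∈ F := by
  unfold ch
  split_ifs with e
  · exact ⟨l, by simp, fun x => ((h1.subperm h3).perm_of_length_le (by omega)).mem_iff.symm⟩
  · exact ⟨F, by simpa [mem_tup] using ⟨⟨by omega, h3⟩, h1⟩, fun _ => Iff.rfl⟩

lemma ncard_list {n : ℕ} {l : List ℕ} (h : l.Nodup) (h' : ∀ x ∈ l, x < n) :
    {v : Fin n | v.1 ∈ l}.ncard = l.length := by
  rw [← Set.ncard_image_of_injective _ Fin.val_injective, ← List.toFinset_card_of_nodup h,
    ← Set.ncard_coe_finset]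
  congr 1
  ext x
  exact ⟨by rintro ⟨v, a, rfl⟩; simpa using a, fun a => ⟨⟨x, h' x (by simpa using a)⟩, by simpa using a, rfl⟩⟩

lemma exists_list {n : ℕ} (S : Set (Fin n)) : ∃ l : List ℕ, l.Nodup ∧ (∀ x ∈ l, x < n) ∧
    S = {v : Fin n | v.1 ∈ l} := by
  classical
  exact ⟨(List.range n).filter fun i => ∃ v ∈ S, v.1 = i, List.nodup_range.filter _,
    fun x hx => List.mem_range.1 (List.mem_of_mem_filter hx), by ext v; simp [Fin.val_inj]⟩

noncomputable def toS (n : ℕ) : (Fin n → ZMod 2) ≃ Set (Fin n) :=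
  Equiv.arrowCongr (Equiv.refl _) (⟨fun c => c = 1, fun p => by classical exact if p then 1 else 0,
    fun c => by rcases z01 c with rfl | rfl <;> simp, fun p => by by_cases h : p <;> simp [h]⟩ : ZMod 2 ≃ Prop)

lemma toS_chi (n : ℕ) (l : List ℕ) : toS n (chi n l) = {v : Fin n | v.1 ∈ l} := Set.ext fun _ => chi1

lemma mv_iff (k : ℕ) (a : Gr) (x y : Fin a.n → ZMod 2) : vm (MM a.n (ML k a)) x y ↔
    ∃ u ∈ toS _ x, ∃ F ⊆ {v | a.arc u v}, F.ncard = min k {v | a.arc u v}.ncard ∧
      toS _ y = symmDiff (toS _ x \ {u}) F := by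
  have nd : ∀ u, (fol a u).Nodup := fun u => List.nodup_range.filter _
  have lt : ∀ u, ∀ v ∈ fol a u, v < a.n := fun u v h => List.mem_range.1 (List.mem_of_mem_filter h)
  have e : ∀ u : Fin a.n, {v | a.arc u v} = {v : Fin a.n | v.1 ∈ fol a u} := fun u => by
    ext v; simp [fol, Gr.arc]
  have f : ∀ (u : Fin a.n) F, x u = 1 → toS _ (x + chi a.n (sd a.n [u] F)) =
      symmDiff (toS _ x \ {u}) {v : Fin a.n | v.1 ∈ F} := fun u F h => by
    ext v
    change (x + chi a.n (sd a.n [u] F)) v = 1 ↔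
      ((x v = 1 ∧ v ≠ u) ∧ v.1 ∉ F) ∨ (v.1 ∈ F ∧ ¬ (x v = 1 ∧ v ≠ u))
    rw [chi_sd]
    by_cases h1 : v = u
    · subst h1
      by_cases h2 : v.1 ∈ F <;> simp [chi, h, h2, CharTwo.add_self_eq_zero]
    · have : v.1 ≠ u.1 := fun k => h1 (Fin.ext k)
      by_cases h2 : v.1 ∈ F <;> rcases z01 (x v) with h3 | h3 <;>
        simp [chi, h1, h2, h3, this, CharTwo.add_self_eq_zero]
  constructor
  · rintro ⟨⟨u, _⟩, ⟨_, q1, q2, rfl⟩, h, rfl⟩
    simp only [ML, List.mem_flatMap, List.mem_map] at q1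
    obtain ⟨_, -, F, hF, rfl⟩ := q1
    simp only at q2 h ⊢
    subst q2
    obtain ⟨b, c, d⟩ := ch1 (nd _) hF
    exact ⟨u, h, {v | v.1 ∈ F}, e u ▸ fun v hv => d _ hv, by
      rw [e, ncard_list b fun z hz => lt _ _ (d z hz), ncard_list (nd _) (lt _), c], f u F h⟩
  · rintro ⟨u, h, F, b, c, d⟩
    obtain ⟨F, g1, g2, rfl⟩ := exists_list F
    rw [e] at b c
    rw [ncard_list g1 g2, ncard_list (nd _) (lt _)] at c
    obtain ⟨F', g3, g4⟩ := ch2 g1 c fun z hz => b (a := ⟨z, g2 z hz⟩) hz
    refine ⟨(u, chi _ (sd a.n [u] F')), ⟨(u, _), ?_, rfl, rfl⟩, h, (toS _).injective ?_⟩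
    · simp only [ML, List.mem_flatMap, List.mem_map]
      exact ⟨u, List.mem_range.2 u.2, F', g3, rfl⟩
    · rw [d, f u F' h]; simp only [g4]

lemma ML1 (k : ℕ) (a : Gr) : ∀ p ∈ ML k a, p.1 < a.n := fun p hp => by
  simp only [ML, List.mem_flatMap, List.mem_map] at hp
  obtain ⟨_, h, F, -, rfl⟩ := hp
  exact List.mem_range.1 h

lemma ML2 (k : ℕ) (a : Gr) : ∀ u < a.n, ∃ p ∈ ML k a, p.1 = u := fun u hu => by
  have nd : (fol a u).Nodup := List.nodup_range.filter _
  obtain ⟨F, hF, -⟩ := ch2 (k := k) (nd.sublist (List.take_sublist k _)) (by simp)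
    fun x hx => List.mem_of_mem_take hx
  refine ⟨(u, sd a.n [u] F), ?_, rfl⟩
  simp only [ML, List.mem_flatMap, List.mem_map]
  exact ⟨u, List.mem_range.2 hu, F, hF, rfl⟩

end Pool.Agent.H.MP_474c54_lc
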