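import Mathlib

set_option autoImplicit false

namespace Pool.Agent.H.MP_474c54_lc

/-- `Win mv false x`: the previous player can force a win from `x`;
`Win mv true x`: the player to move can force a win from `x` -/
inductive Win {α : Type} (mv : α → α → Prop) : Bool → α → Prop
  | prev (x : α) : (∀ y, mv x y → Win mv true y) → Win mv false x
  | next (x y : α) : mv x y → Win mv false y → Win mv true x

lemma Win.map {α β : Type} {mv : α → α → Prop} {mv' : β → β → Prop} (e : α ≃ β)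
    (h : ∀ x y, mv x y ↔ mv' (e x) (e y)) {b : Bool} {x : α} (w : Win mv b x) : Win mv' b (e x) := by
  induction w with
  | prev x _ ih => exact .prev _ fun y hy => by simpa using ih (e.symm y) ((h _ _).2 (by simpa using hy))
  | next x y a _ ih => exact .next _ _ ((h _ _).1 a) ih

lemma Win.iff {α β : Type} {mv : α → α → Prop} {mv' : β → β → Prop} (e : α ≃ β)
    (h : ∀ x y, mv x y ↔ mv' (e x) (e y)) (b : Bool) (x : α) : Win mv b x ↔ Win mv' b (e x) :=
  ⟨.map e h, fun w => by simpa using w.map e.symm fun x y => by simp [h]⟩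

variable {ι : Type} (M : Set (ι × (ι → ZMod 2)))

lemma aa (v : ι → ZMod 2) : v + v = 0 := funext fun _ => CharTwo.add_self_eq_zero _
lemma z01 (a : ZMod 2) : a = 0 ∨ a = 1 := by revert a; decide

def vm (x y : ι → ZMod 2) : Prop := ∃ p ∈ M, x p.1 = 1 ∧ y = x + p.2

def R (U : AddSubgroup (ι → ZMod 2)) : ℕ → (ι → ZMod 2) → Prop
  | 0, _ => False
  | r + 1, x => x ∈ U ∧ ∀ y, vm M x y → ∃ z, vm M y z ∧ R U r z

variable {M} {U U' : AddSubgroup (ι → ZMod 2)}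

lemma R.mono (h : U ≤ U') {r r' : ℕ} (hr : r ≤ r') {x : ι → ZMod 2} (a : R M U r x) : R M U' r' x := by
  induction r generalizing r' x with
  | zero => exact a.elim
  | succ r ih =>
    obtain ⟨r', rfl⟩ := Nat.exists_eq_add_one_of_ne_zero (show r' ≠ 0 by omega)
    exact ⟨h a.1, fun y hy => (a.2 y hy).imp fun z hz => ⟨hz.1, ih (by omega) hz.2⟩⟩

lemma R.mem {r : ℕ} {x : ι → ZMod 2} (a : R M U r x) : x ∈ U := by
  cases r with
  | zero => exact a.elim
  | succ r => exact a.1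

lemma R.win {r : ℕ} {x : ι → ZMod 2} (a : R M U r x) : Win (vm M) false x := by
  induction r generalizing x with
  | zero => exact a.elim
  | succ r ih => exact .prev _ fun y hy => let ⟨z, b, c⟩ := a.2 y hy; .next _ z b (ih c)

lemma of_T (hM : M.Finite) {x : ι → ZMod 2} (hx : x ∈ U)
    (h : ∀ y, vm M x y → ∃ z, vm M y z ∧ ∃ r, R M U r z) : ∃ r, R M U r x := by
  have : ∀ p, ∃ r, p ∈ M → x p.1 = 1 → ∃ z, vm M (x + p.2) z ∧ R M U r z := fun p => by
    by_cases e : p ∈ M ∧ x p.1 = 1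
    · obtain ⟨z, a, r, b⟩ := h _ ⟨p, e.1, e.2, rfl⟩
      exact ⟨r, fun _ _ => ⟨z, a, b⟩⟩
    · exact ⟨0, fun a b => absurd ⟨a, b⟩ e⟩
  choose f hf using this
  obtain ⟨r, hr⟩ := (hM.image f).bddAbove
  refine ⟨r + 1, hx, ?_⟩
  rintro _ ⟨p, a, b, rfl⟩
  exact (hf p a b).imp fun z c => ⟨c.1, c.2.mono le_rfl (hr ⟨p, a, rfl⟩)⟩

lemma win_R (hM : M.Finite) {b : Bool} {x : ι → ZMod 2} (w : Win (vm M) b x) :
    if b then ∃ z, vm M x z ∧ ∃ r, R M ⊤ r z else ∃ r, R M ⊤ r x := by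
  induction w with
  | prev x _ ih => exact of_T hM trivial ih
  | next x y a _ ih => exact ⟨y, a, ih⟩

lemma R.add2 (s : ℕ) : ∀ r r' x y, r + r' ≤ s → R M U r x → R M U r' y → R M U s (x + y) ∧
    ∀ w, vm M w x → ∃ z, vm M (w + y) z ∧ R M U s z := by
  induction s with
  | zero => intro r r' x y h a; obtain rfl : r = 0 := by omega
            exact a.elim
  | succ s ih =>
    intro r r' x y h a b
    obtain ⟨r, rfl⟩ : ∃ t, r = t + 1 := by cases r; exacts [a.elim, ⟨_, rfl⟩]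
    obtain ⟨r', rfl⟩ : ∃ t, r' = t + 1 := by cases r'; exacts [b.elim, ⟨_, rfl⟩]
    have h1 : R M U (s + 1) (x + y) := by
      refine ⟨U.add_mem a.1 b.1, ?_⟩
      rintro _ ⟨p, p1, p2, rfl⟩
      rcases z01 (x p.1) with e | e
      · obtain ⟨z, c, d⟩ := b.2 _ ⟨p, p1, by simpa [e] using p2, rfl⟩
        rw [show x + y + p.2 = y + p.2 + x by ring]
        exact (ih r' (r + 1) z x (by omega) d a).2 _ c
      · obtain ⟨z, c, d⟩ := a.2 _ ⟨p, p1, e, rfl⟩
        rw [show x + y + p.2 = x + p.2 + y by ring]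
        exact (ih r (r' + 1) z y (by omega) d b).2 _ c
    refine ⟨h1, ?_⟩
    rintro w ⟨p, p1, p2, rfl⟩
    rcases z01 (y p.1) with e | e
    · exact ⟨_, ⟨p, p1, by simp [e, p2], by ring⟩, h1⟩
    · obtain ⟨z, c, d⟩ := b.2 _ ⟨p, p1, e, rfl⟩
      obtain ⟨z', c', d'⟩ := (ih r' (r + 1) z _ (by omega) d a).2 _ c
      rw [show y + p.2 + (w + p.2) = w + y by linear_combination aa p.2] at c'
      exact ⟨z', c', d'.mono le_rfl (by omega)⟩

/-- all positions of `U` are won by the previous player with replies inside `U` -/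
def Cl (M : Set (ι × (ι → ZMod 2))) (U : AddSubgroup (ι → ZMod 2)) : Prop := ∀ x ∈ U, ∃ r, R M U r x

def Bad (M : Set (ι × (ι → ZMod 2))) (U : AddSubgroup (ι → ZMod 2)) (q : ι → ZMod 2) (u : ι) : Prop :=
  ∃ p ∈ M, p.1 = u ∧ ∀ p' ∈ M, q + p.2 + p'.2 ∈ U → p'.2 p'.1 = 0 ∧ (q + p.2) p'.1 = 0

def Good (M : Set (ι × (ι → ZMod 2))) (U : AddSubgroup (ι → ZMod 2)) (q : ι → ZMod 2) : Prop :=
  ∃ y ∈ U, ∀ u, Bad M U q u → (q + y) u = 0

lemma Cl.loop (C : Cl M U) {c : ι → ZMod 2} (h : ∀ p ∈ M, c + p.2 ∈ U → p.2 p.1 = 0) {y : ι → ZMod 2}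
    (hy : y ∈ U) : ∀ p ∈ M, c + p.2 ∈ U → y p.1 = 0 := by
  obtain ⟨r, a⟩ := C y hy
  induction r generalizing y with
  | zero => exact a.elim
  | succ r ih =>
    intro p p1 p2
    refine (z01 _).resolve_right fun e => ?_
    obtain ⟨_, ⟨t, t1, t2, rfl⟩, b⟩ := a.2 _ ⟨p, p1, e, rfl⟩
    have t3 : c + t.2 ∈ U := by
      rw [show c + t.2 = y + p.2 + t.2 + y + (c + p.2) by linear_combination - aa y - aa p.2]
      exact U.add_mem (U.add_mem b.mem hy) p2
    have := ih b.mem b t t1 t3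
    rw [Pi.add_apply, t2, h t t1 t3] at this
    exact absurd this (by decide)

lemma Cl.sound (C : Cl M U) {q y : ι → ZMod 2} (hy : y ∈ U) (h : ∀ u, Bad M U q u → (q + y) u = 0)
    (w : ι → ZMod 2) (hw : vm M (q + y) w) : ∃ z, vm M w z ∧ z ∈ U := by
  obtain ⟨p, p1, p2, rfl⟩ := hw
  have m : ∀ t, q + p.2 + t ∈ U → q + y + p.2 + t ∈ U := fun t ht => by
    rw [show q + y + p.2 + t = q + p.2 + t + y by ring]; exact U.add_mem ht hy
  by_cases e : ∀ t ∈ M, q + p.2 + t.2 ∈ U → t.2 t.1 = 0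
  · by_contra k
    refine absurd (p2.symm.trans (h _ ⟨p, p1, rfl, fun t t1 t2 => ⟨e t t1 t2, ?_⟩⟩)) (by decide)
    refine (z01 _).resolve_right fun f => k ⟨_, ⟨t, t1, ?_, rfl⟩, m _ t2⟩
    have := C.loop e hy t t1 t2
    simp only [Pi.add_apply] at *
    rw [this, add_zero, f]
  · push Not at e
    obtain ⟨t, t1, t2, t3⟩ := e
    rcases z01 ((q + y + p.2) t.1) with f | f
    · obtain ⟨r, a⟩ := C _ (m _ t2)
      obtain ⟨r, rfl⟩ : ∃ t, r = t + 1 := by cases r; exacts [a.elim, ⟨_, rfl⟩]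
      obtain ⟨z, b, c⟩ := a.2 (q + y + p.2) ⟨t, t1, by
        rw [Pi.add_apply, f, zero_add]; exact (z01 _).resolve_left t3, by linear_combination - aa t.2⟩
      exact ⟨z, b, c.mem⟩
    · exact ⟨_, ⟨t, t1, f, rfl⟩, m _ t2⟩

lemma Cl.compl (C : Cl M U) {q y : ι → ZMod 2} (hy : y ∈ U)
    (h : ∀ w, vm M (q + y) w → ∃ z, vm M w z ∧ z ∈ U) : Good M U q := by
  refine ⟨y, hy, ?_⟩
  rintro _ ⟨p, p1, rfl, p2⟩
  refine (z01 _).resolve_right fun e => ?_
  obtain ⟨_, ⟨t, t1, t2, rfl⟩, t3⟩ := h _ ⟨p, p1, e, rfl⟩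
  have t4 : q + p.2 + t.2 ∈ U := by
    rw [show q + p.2 + t.2 = q + y + p.2 + t.2 + y by linear_combination - aa y]; exact U.add_mem t3 hy
  have a := C.loop (fun t a b => (p2 t a b).1) hy t t1 t4
  have b := (p2 t t1 t4).2
  simp only [Pi.add_apply] at *
  rw [a, add_zero, b] at t2
  exact absurd t2 (by decide)

lemma Cl.next (hM : M.Finite) (h0 : ∃ r, R M ⊥ r 0) (C : Cl M U) {S : Set (ι → ZMod 2)}
    (hS : ∀ q ∈ S, Good M U q) (hU : U ≤ AddSubgroup.closure S) : Cl M (AddSubgroup.closure S) := by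
  have ad : ∀ x y, (∃ r, R M (AddSubgroup.closure S) r x) → (∃ r, R M (AddSubgroup.closure S) r y) →
      ∃ r, R M (AddSubgroup.closure S) r (x + y) := fun x y ⟨r, a⟩ ⟨r', b⟩ =>
    ⟨_, (R.add2 _ r r' x y le_rfl a b).1⟩
  have up : ∀ x ∈ U, ∃ r, R M (AddSubgroup.closure S) r x := fun x hx =>
    (C x hx).imp fun r a => a.mono hU le_rfl
  intro x hx
  induction hx using AddSubgroup.closure_induction with
  | mem q hq =>
    obtain ⟨y, a, b⟩ := hS q hq
    rw [show q = q + y + y by linear_combination - aa y]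
    exact ad _ _ (of_T hM (AddSubgroup.add_mem _ (AddSubgroup.subset_closure hq) (hU a)) fun w hw =>
      (C.sound a b w hw).imp fun z c => ⟨c.1, up z c.2⟩) (up y a)
  | zero => exact h0.imp fun r a => a.mono bot_le le_rfl
  | add x y _ _ a b => exact ad x y a b
  | neg x _ a => rwa [neg_eq_of_add_eq_zero_left (aa x)]

lemma Cl.fix (C : Cl M U) (hm : ∀ u, ∃ p ∈ M, p.1 = u)
    (h : ∀ p ∈ M, ∀ t ∈ M, Good M U (p.2 + t.2) → p.2 + t.2 ∈ U) {r : ℕ} {x : ι → ZMod 2}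
    (a : R M ⊤ r x) : x ∈ U := by
  induction r generalizing x with
  | zero => exact a.elim
  | succ r ih =>
    have b : ∀ w, vm M x w → ∃ z, vm M w z ∧ z ∈ U := fun w hw => (a.2 w hw).imp fun z c => ⟨c.1, ih c.2⟩
    by_cases e : x = 0
    · exact e ▸ U.zero_mem
    obtain ⟨u, hu⟩ := Function.ne_iff.1 e
    obtain ⟨p, p1, rfl⟩ := hm u
    obtain ⟨_, ⟨t, t1, -, rfl⟩, t2⟩ := b _ ⟨p, p1, (z01 _).resolve_left hu, rfl⟩
    have f : p.2 + t.2 + (x + p.2 + t.2) = x := by linear_combination aa p.2 + aa t.2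
    exact f ▸ U.add_mem (h p p1 t t1 (C.compl t2 (f.symm ▸ b))) t2

end Pool.Agent.H.MP_474c54_lc
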