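import Pool.Agent.H.MP_474c54_lc.A
import Pool.Agent.Lib.lead.CXBase
import Pool.Agent.Lib.lead.CXGraph

set_option autoImplicit false

namespace Pool.Agent.H.MP_474c54_lc
open Pool.Agent.Lib.CX

def chi (n : ℕ) (l : List ℕ) : Fin n → ZMod 2 := fun i => if i.1 ∈ l then 1 else 0
def sd (n : ℕ) (a b : List ℕ) : List ℕ := (List.range n).filter fun i => ¬ (i ∈ a ↔ i ∈ b)
def sp (n : ℕ) (L : List (List ℕ)) : AddSubgroup (Fin n → ZMod 2) := AddSubgroup.closure (chi n '' {l | l ∈ L})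

lemma chi_sd (n : ℕ) (a b : List ℕ) : chi n (sd n a b) = chi n a + chi n b := by
  funext i
  by_cases h : i.1 ∈ a <;> by_cases h' : i.1 ∈ b <;> simp [chi, sd, h, h', CharTwo.add_self_eq_zero]

lemma chi0 {n : ℕ} {l : List ℕ} {i : Fin n} : chi n l i = 0 ↔ i.1 ∉ l := by simp [chi]
lemma chi1 {n : ℕ} {l : List ℕ} {i : Fin n} : chi n l i = 1 ↔ i.1 ∈ l := by simp [chi]

def piv (L : List (List ℕ)) (i : ℕ) : List ℕ := (L.find? fun v => i ∈ v).getD []
def el (n i : ℕ) (p v : List ℕ) : List ℕ := if i ∈ v then sd n v p else v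
def st (n : ℕ) (s : List (List ℕ) × List ℕ × Bool) (i : ℕ) : List (List ℕ) × List ℕ × Bool :=
  (s.1.map (el n i (piv s.1 i)), el n i (piv s.1 i) s.2.1, s.2.2 && decide (i ∈ piv s.1 i ∨ i ∉ s.2.1))
def solve (n : ℕ) (L : List (List ℕ)) (x B : List ℕ) : Bool := (B.foldl (st n) (L, x, true)).2.2

lemma chi_el {n : ℕ} (i : Fin n) (p v : List ℕ) : chi n (el n i p v) = chi n v + chi n v i • chi n p := by
  unfold el
  split_ifs with h
  · rw [chi_sd, chi1.2 h, one_smul]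
  · rw [chi0.2 h, zero_smul, add_zero]

lemma fold_iff {n : ℕ} (B : List ℕ) (hB : ∀ i ∈ B, i < n) (L : List (List ℕ)) (x : List ℕ) (ok : Bool) :
    (B.foldl (st n) (L, x, ok)).2.2 = true ↔
      ok = true ∧ ∃ y ∈ sp n L, ∀ j : Fin n, j.1 ∈ B → (chi n x + y) j = 0 := by
  induction B generalizing L x ok with
  | nil => simpa using fun _ => ⟨0, (sp n L).zero_mem⟩
  | cons i B ih =>
    obtain ⟨i, rfl⟩ : ∃ j : Fin n, i = j := ⟨⟨i, hB i List.mem_cons_self⟩, rfl⟩
    rw [List.foldl_cons, st, ih fun j hj => hB j (List.mem_cons_of_mem _ hj)]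
    simp only [Bool.and_eq_true, decide_eq_true_eq, chi_el]
    have h1 : (piv L i = [] ∧ ∀ v ∈ L, i.1 ∉ v) ∨ (piv L i ∈ L ∧ i.1 ∈ piv L i) := by
      unfold piv
      cases h : L.find? fun v => i.1 ∈ v with
      | none => exact Or.inl ⟨rfl, by simpa using h⟩
      | some p => exact Or.inr ⟨List.mem_of_find?_eq_some h, by simpa using List.find?_some h⟩
    generalize piv L i = p at *
    have sm : ∀ c : ZMod 2, c • chi n p ∈ sp n L := fun c => by
      rcases z01 c with rfl | rfl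
      · simp
      · rcases h1 with ⟨rfl, -⟩ | h
        · exact (show (1 : ZMod 2) • chi n [] = 0 by funext; simp [chi]) ▸ (sp n L).zero_mem
        · rw [one_smul]; exact AddSubgroup.subset_closure ⟨p, h.1, rfl⟩
    have h2 : ∀ y ∈ sp n (L.map (el n i p)), y ∈ sp n L ∧ y i = 0 := fun y hy => by
      induction hy using AddSubgroup.closure_induction with
      | mem q hq =>
        obtain ⟨_, hq, rfl⟩ := hq
        obtain ⟨v, hv, rfl⟩ := List.mem_map.1 hq
        rw [chi_el]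
        refine ⟨(sp n L).add_mem (AddSubgroup.subset_closure ⟨v, hv, rfl⟩) (sm _), ?_⟩
        rcases h1 with h | h
        · simp [chi0.2 (h.2 v hv)]
        · simp [chi1.2 h.2, CharTwo.add_self_eq_zero]
      | zero => exact ⟨(sp n L).zero_mem, rfl⟩
      | add x y _ _ a b => exact ⟨(sp n L).add_mem a.1 b.1, by simp [a.2, b.2]⟩
      | neg x _ a => exact ⟨(sp n L).neg_mem a.1, by simp [a.2]⟩
    have h3 : ∀ y ∈ sp n L, y + y i • chi n p ∈ sp n (L.map (el n i p)) ∧ (i.1 ∉ p → y i = 0) := fun y hy => by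
      induction hy using AddSubgroup.closure_induction with
      | mem q hq =>
        obtain ⟨v, hv, rfl⟩ := hq
        exact ⟨AddSubgroup.subset_closure ⟨_, List.mem_map_of_mem hv, chi_el _ _ _⟩,
          fun k => chi0.2 ((h1.resolve_right fun h => k h.2).2 v hv)⟩
      | zero => simp
      | add x y _ _ a b =>
        refine ⟨?_, fun k => by simp [a.2 k, b.2 k]⟩
        rw [Pi.add_apply, add_smul, add_add_add_comm]
        exact AddSubgroup.add_mem _ a.1 b.1
      | neg x _ a => rwa [neg_eq_of_add_eq_zero_left (aa x)]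
    constructor
    · rintro ⟨⟨a, b⟩, y, c, d⟩
      refine ⟨a, y + chi n x i • chi n p, (sp n L).add_mem (h2 y c).1 (sm _), fun j hj => ?_⟩
      rcases List.mem_cons.1 hj with e | e
      · obtain rfl := Fin.ext e
        rcases b with b | b
        · simp [(h2 y c).2, chi1.2 b, CharTwo.add_self_eq_zero]
        · simp [(h2 y c).2, chi0.2 b]
      · rw [← d j e, add_comm y, add_assoc]
    · rintro ⟨a, y, c, d⟩
      have e := d i List.mem_cons_self
      refine ⟨⟨a, or_iff_not_imp_left.2 fun k => chi0.1 (by simpa [(h3 y c).2 k] using e)⟩, _, (h3 y c).1,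
        fun j hj => ?_⟩
      rw [add_add_add_comm, ← add_smul, ← Pi.add_apply (chi n x) y i, e, zero_smul, add_zero]
      exact d j (List.mem_cons_of_mem _ hj)

lemma solve_iff {n : ℕ} {B : List ℕ} (hB : ∀ i ∈ B, i < n) (L : List (List ℕ)) (x : List ℕ) :
    solve n L x B = true ↔ ∃ y ∈ sp n L, ∀ j : Fin n, j.1 ∈ B → (chi n x + y) j = 0 := by
  simp [solve, fold_iff B hB]

def inS (n : ℕ) (L : List (List ℕ)) (x : List ℕ) : Bool := solve n L x (List.range n)

lemma inS_iff {n : ℕ} (L : List (List ℕ)) (x : List ℕ) : inS n L x = true ↔ chi n x ∈ sp n L := by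
  rw [inS, solve_iff (by simp)]
  refine ⟨fun ⟨y, a, b⟩ => ?_, fun h => ⟨_, h, fun j _ => by rw [aa]; rfl⟩⟩
  have : chi n x + y = 0 := funext fun j => b j (by simp)
  rwa [show chi n x = y by linear_combination this - aa y]

def bad (n : ℕ) (Ms : List (ℕ × List ℕ)) (L : List (List ℕ)) (q : List ℕ) : List ℕ :=
  (List.range n).filter fun u => ∃ p ∈ Ms, p.1 = u ∧ ∀ t ∈ Ms,
    inS n L (sd n (sd n q p.2) t.2) = true → t.1 ∉ t.2 ∧ t.1 ∉ sd n q p.2
def cands (n : ℕ) (Ms : List (ℕ × List ℕ)) : List (List ℕ) := (Ms ×ˢ Ms).map fun p => sd n p.1.2 p.2.2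
def nxt (n : ℕ) (Ms : List (ℕ × List ℕ)) (L : List (List ℕ)) : List (List ℕ) :=
  (cands n Ms).filter fun q => solve n L q (bad n Ms L q)
def fin (n : ℕ) (Ms : List (ℕ × List ℕ)) : List (List ℕ) := (nxt n Ms)^[(cands n Ms).length] []
def MM (n : ℕ) (Ms : List (ℕ × List ℕ)) : Set (Fin n × (Fin n → ZMod 2)) :=
  {p | ∃ q ∈ Ms, q.1 = p.1 ∧ p.2 = chi n q.2}

variable {n : ℕ} {Ms : List (ℕ × List ℕ)}

lemma good_iff (h : ∀ p ∈ Ms, p.1 < n) (L : List (List ℕ)) (q : List ℕ) :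
    solve n L q (bad n Ms L q) = true ↔ Good (MM n Ms) (sp n L) (chi n q) := by
  rw [solve_iff (B := bad n Ms L q) fun i hi => List.mem_range.1 (List.mem_of_mem_filter hi)]
  refine exists_congr fun y => and_congr_right fun _ => forall_congr' fun u => imp_congr_left ?_
  simp only [bad, List.mem_filter, List.mem_range, u.2, true_and, decide_eq_true_eq, inS_iff, chi_sd]
  constructor
  · rintro ⟨p, a, b, c⟩
    refine ⟨(u, chi n p.2), ⟨p, a, b, rfl⟩, rfl, ?_⟩
    rintro ⟨v, _⟩ ⟨t, t1, t2, rfl⟩ d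
    simp only at t2 ⊢
    rw [← chi_sd, chi0, chi0, ← t2]
    exact c t t1 d
  · rintro ⟨⟨_, _⟩, ⟨p, a, b, rfl⟩, rfl, c⟩
    refine ⟨p, a, b, fun t t1 d => ?_⟩
    have := c (⟨t.1, h t t1⟩, chi n t.2) ⟨t, t1, rfl, rfl⟩ d
    simp only at this
    rwa [← chi_sd, chi0, chi0] at this

theorem fin_iff (h : ∀ p ∈ Ms, p.1 < n) (hm : ∀ u < n, ∃ p ∈ Ms, p.1 = u) (x : List ℕ) :
    inS n (fin n Ms) x = true ↔ Win (vm (MM n Ms)) false (chi n x) := by
  have hM : (MM n Ms).Finite := Set.toFinite _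
  have h0 : ∃ r, R (MM n Ms) ⊥ r 0 := ⟨1, AddSubgroup.zero_mem _, by rintro _ ⟨p, -, e, -⟩; simp at e⟩
  have mn : ∀ L q, q ∈ nxt n Ms L ↔ q ∈ cands n Ms ∧ Good (MM n Ms) (sp n L) (chi n q) := fun L q => by
    rw [nxt, List.mem_filter, good_iff h]
  have up : ∀ L, (∀ q ∈ L, q ∈ cands n Ms) → sp n L ≤ sp n (nxt n Ms L) := fun L hL =>
    AddSubgroup.closure_mono (Set.image_mono fun q hq => (mn L q).2 ⟨hL q hq, _,
      AddSubgroup.subset_closure ⟨q, hq, rfl⟩, fun u _ => by rw [aa]; rfl⟩)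
  have : ∀ t, (∀ q ∈ (nxt n Ms)^[t] [], q ∈ cands n Ms) ∧ Cl (MM n Ms) (sp n ((nxt n Ms)^[t] [])) ∧
      ((∀ q ∈ cands n Ms, Good (MM n Ms) (sp n ((nxt n Ms)^[t] [])) (chi n q) →
        chi n q ∈ sp n ((nxt n Ms)^[t] [])) ∨ t ≤ (cands n Ms).countP (inS n ((nxt n Ms)^[t] []))) := fun t => by
    induction t with
    | zero => exact ⟨by simp, by simpa [sp, Cl] using h0, Or.inr (Nat.zero_le _)⟩
    | succ t ih =>
      rw [Function.iterate_succ_apply']
      generalize (nxt n Ms)^[t] [] = L at *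
      obtain ⟨a, b, c⟩ := ih
      refine ⟨fun q hq => ((mn L q).1 hq).1, b.next hM h0 (by
        rintro _ ⟨q, hq, rfl⟩; exact ((mn L q).1 hq).2) (up L a), ?_⟩
      by_cases e : ∀ q ∈ cands n Ms, Good (MM n Ms) (sp n L) (chi n q) → chi n q ∈ sp n L
      · have : sp n (nxt n Ms L) = sp n L := le_antisymm ((AddSubgroup.closure_le _).2 (by
          rintro _ ⟨q, hq, rfl⟩; exact e q ((mn L q).1 hq).1 ((mn L q).1 hq).2)) (up L a)
        exact Or.inl (this ▸ e)
      · refine Or.inr ((c.resolve_left e).trans_lt ?_)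
        push Not at e
        obtain ⟨q, q1, q2, q3⟩ := e
        obtain ⟨l1, l2, f⟩ := List.append_of_mem q1
        have m := fun l : List (List ℕ) => List.countP_mono_left (l := l) (p := inS n L)
          (q := inS n (nxt n Ms L)) fun x _ k => (inS_iff _ _).2 (up L a ((inS_iff _ _).1 k))
        have q4 : inS n (nxt n Ms L) q = true :=
          (inS_iff _ _).2 (AddSubgroup.subset_closure ⟨q, (mn L q).2 ⟨q1, q2⟩, rfl⟩)
        have := m l1
        have := m l2
        rw [f, List.countP_append, List.countP_append, List.countP_cons_of_pos q4,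
          List.countP_cons_of_neg (by rwa [inS_iff])]
        omega
  obtain ⟨-, b, c⟩ := this (cands n Ms).length
  rw [inS_iff]
  refine ⟨fun k => (b _ k).elim fun r a => a.win, fun w => ?_⟩
  obtain ⟨r, a⟩ : ∃ r, R (MM n Ms) ⊤ r (chi n x) := win_R hM w
  refine b.fix (fun u => ?_) ?_ a
  · obtain ⟨p, p1, p2⟩ := hm u u.2
    exact ⟨(u, chi n p.2), ⟨p, p1, p2, rfl⟩, rfl⟩
  · rintro ⟨_, _⟩ ⟨p, p1, -, rfl⟩ ⟨_, _⟩ ⟨t, t1, -, rfl⟩
    have q1 : sd n p.2 t.2 ∈ cands n Ms := List.mem_map.2 ⟨(p, t), List.mem_product.2 ⟨p1, t1⟩, rfl⟩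
    simp only [← chi_sd]
    rcases c with c | c
    · exact c _ q1
    · exact fun _ => (inS_iff _ _).1 (List.countP_eq_length.1 (le_antisymm List.countP_le_length c) _ q1)

def opts (n : ℕ) (Ms : List (ℕ × List ℕ)) (x : List ℕ) : List (List ℕ) :=
  (Ms.filter fun p => p.1 ∈ x).map fun p => sd n x p.2
def alg (n : ℕ) (Ms : List (ℕ × List ℕ)) (L : List (List ℕ)) (x : List ℕ) : ℕ × List ℕ :=
  if inS n L x then (0, []) else if (opts n Ms x).any (inS n L) then (1, ((opts n Ms x).find? (inS n L)).getD [])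
  else (2, ((opts n Ms x).find? fun y => !(opts n Ms y).any (inS n L)).getD [])

theorem alg_ok (h : ∀ p ∈ Ms, p.1 < n) (hm : ∀ u < n, ∃ p ∈ Ms, p.1 = u) (x : List ℕ) (o : ℕ × List ℕ)
    (ho : o = alg n Ms (fin n Ms) x) : (Win (vm (MM n Ms)) false (chi n x) ∧ o.1 = 0) ∨
    (Win (vm (MM n Ms)) true (chi n x) ∧ o.1 = 1 ∧ vm (MM n Ms) (chi n x) (chi n o.2) ∧
      Win (vm (MM n Ms)) false (chi n o.2)) ∨
    ((∀ b, ¬ Win (vm (MM n Ms)) b (chi n x)) ∧ o.1 = 2 ∧ vm (MM n Ms) (chi n x) (chi n o.2) ∧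
      ∀ b, ¬ Win (vm (MM n Ms)) b (chi n o.2)) := by
  have o1 : ∀ x, ∀ y ∈ opts n Ms x, vm (MM n Ms) (chi n x) (chi n y) := fun x y hy => by
    obtain ⟨p, hp, rfl⟩ := List.mem_map.1 hy
    rw [List.mem_filter, decide_eq_true_eq] at hp
    exact ⟨(⟨p.1, h p hp.1⟩, chi n p.2), ⟨p, hp.1, rfl, rfl⟩, chi1.2 hp.2, chi_sd _ _ _⟩
  have o2 : ∀ x z, vm (MM n Ms) (chi n x) z → ∃ y ∈ opts n Ms x, z = chi n y := by
    rintro x _ ⟨⟨u, _⟩, ⟨p, a, b, rfl⟩, c, rfl⟩
    exact ⟨_, List.mem_map.2 ⟨p, List.mem_filter.2 ⟨a, by simpa [b] using chi1.1 c⟩, rfl⟩, (chi_sd _ _ _).symm⟩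
  have o3 : ∀ x, (opts n Ms x).any (inS n (fin n Ms)) = true ↔ Win (vm (MM n Ms)) true (chi n x) := fun x => by
    rw [List.any_eq_true]
    refine ⟨fun ⟨y, a, b⟩ => .next _ _ (o1 x y a) ((fin_iff h hm y).1 b), fun w => ?_⟩
    cases w with
    | next _ z a b =>
      obtain ⟨y, c, rfl⟩ := o2 x z a
      exact ⟨y, c, (fin_iff h hm y).2 b⟩
  unfold alg at ho
  split_ifs at ho with a b <;> subst ho
  · exact Or.inl ⟨(fin_iff h hm x).1 a, rfl⟩
  · cases e : (opts n Ms x).find? (inS n (fin n Ms)) with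
    | none => exact absurd b (by simpa using e)
    | some y => exact Or.inr (Or.inl ⟨(o3 x).1 b, rfl, o1 x y (List.mem_of_find?_eq_some e),
        (fin_iff h hm y).1 (List.find?_some e)⟩)
  · rw [fin_iff h hm] at a
    rw [o3] at b
    cases e : (opts n Ms x).find? fun y => !(opts n Ms y).any (inS n (fin n Ms)) with
    | none =>
      refine absurd (.prev _ fun z hz => ?_) a
      obtain ⟨y, c, rfl⟩ := o2 x z hz
      exact (o3 y).1 (by simpa using List.find?_eq_none.1 e y c)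
    | some y =>
      have c := o1 x y (List.mem_of_find?_eq_some e)
      refine Or.inr (Or.inr ⟨Bool.rec a b, rfl, c, Bool.rec (fun w => b (.next _ _ c w)) fun w => ?_⟩)
      have := List.find?_some e
      rw [(o3 y).2 w] at this
      simp at this

end Pool.Agent.H.MP_474c54_lc
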